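import Pool.Agent.R569.SF.Undec

/-!
# Any-dimensional non-negativity of symmetric functions is undecidable (question Q1)

The definitions `trunc`, `NonNeg`, `rat`, `Inst`, `poly` and `fam` are in `Pool.Agent.R569.SF.Defs`.

Idea of the proof. Let `0, 1, …, k` be nodes and let `w(t) = (t (t - 1) ⋯ (t - k))^2 (1 + t^2)^M`.
There are polynomials `r_i` with `r_i(j) = δ_ij` and `r_i'(j) = 0` at all nodes, and
`|r_i(t) - [t is rounded to i]| ≤ A w(t)` for all real `t`. So for every multiset of real numbers
`x_1, …, x_n` the linear combinations `n_i = ∑_j r_i(x_j)` of power sums are within `A W` of a natural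
number `N_i`, where `W = ∑_j w(x_j)`. If `D` is a sum of squares of integer polynomials, then
`D(n_1, …, n_k) - 1/2 + K W (1 + ∑ n_i^2)^M'` is at least `1/2` everywhere if `D` has no zero in natural
numbers, and takes the value `-1/2` otherwise (repeat the node `i` as often as the zero prescribes).
-/

set_option autoImplicit false

namespace Pool.Agent.Results.MP_9c9736_lc.NonNegativity

open MvPolynomial Pool.Agent.R569 Pool.Agent.R569.SF

/-- (1) No algorithm decides, given the finite data `L` of a polynomial `g` with rational coefficients
in the power sums, whether the symmetric function `f = g(p_1, p_2, …)` is any-dimensional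
non-negative.
(2) There are fixed data `A`, `B` such that for the symmetric functions `f_a = A + a B + a^2`
(`a` a natural number) every recursively enumerable set is many-one reducible to the set of the `a`
for which `f_a` is not any-dimensional non-negative; and if `f_a` is any-dimensional non-negative, then
all truncations of `f_a` are at least `1/2` everywhere. In particular the set of the `a` for which
`f_a` is any-dimensional non-negative is not recursively enumerable, although only finitely many power
sums occur and the degree is bounded in this family. -/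
theorem result :
    (¬ ∃ D : Inst → Prop, ComputablePred D ∧ ∀ L : Inst, D L ↔ NonNeg (poly L)) ∧
    ∃ A B : Inst,
      (∀ a : ℕ, poly (fam A B a) = poly A + C (a : ℚ) * poly B + C ((a : ℚ) ^ 2)) ∧
      Computable (fam A B) ∧
      (∀ W : ℕ → Prop, REPred W → ∃ g : ℕ → ℕ, Computable g ∧
        ∀ n, W n ↔ ¬ NonNeg (poly (fam A B (g n)))) ∧
      (∀ a : ℕ, NonNeg (poly (fam A B a)) →
        ∀ (n : ℕ) (x : Fin n → ℝ), 1 / 2 ≤ trunc (poly (fam A B a)) n x) ∧
      ¬ REPred fun a : ℕ => NonNeg (poly (fam A B a)) := by
  obtain ⟨A, B, h⟩ := exists_fam
  have key : ∀ a, NonNeg (poly (fam A B a)) ↔ ¬ haltS a := by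
    intro a
    constructor
    · intro h1 h2
      obtain ⟨n, x, h3⟩ := (h a).2 h2
      have := h1 n x
      rw [h3] at this
      norm_num at this
    · intro h1 n x
      have := (h a).1 h1 n x
      linarith
  refine ⟨?_, A, B, poly_fam A B, fam_computable A B, ?_, ?_, ?_⟩
  · rintro ⟨D, hD, hDL⟩
    exact not_re_of_reduction (fam A B) (fam_computable A B)
      (fun n => (hDL _).trans (key n)) hD.to_re
  · intro W hW
    obtain ⟨g, hg, hWg⟩ := haltS_universal hW
    refine ⟨g, hg, fun n => ?_⟩
    rw [hWg, key, not_not]
  · intro a ha
    exact (h a).1 ((key a).1 ha)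
  · exact not_re_of_reduction id Computable.id key

end Pool.Agent.Results.MP_9c9736_lc.NonNegativity
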