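import Pool.Agent.R569.SF.Undec

/-!
# Any-dimensional positivity of symmetric functions is undecidable (question Q2)

The definitions `trunc`, `Homog`, `Pos`, `rat`, `Inst`, `poly` and `fam` are in
`Pool.Agent.R569.SF.Defs`. The proof is explained in the file `NonNegativity` (question Q1).
-/

set_option autoImplicit false

namespace Pool.Agent.Results.MP_9c9736_lc.Positivity

open MvPolynomial Pool.Agent.R569 Pool.Agent.R569.SF

/-- (1) No algorithm decides, given the finite data `L` of a polynomial `g` with rational coefficients
in the power sums, whether the symmetric function `f = g(p_1, p_2, …)` is any-dimensional positive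
(in the homogeneous case: positive definite).
(2) There are fixed data `A`, `B` such that for the symmetric functions `f_a = A + a B + a^2`
(`a` a natural number) every recursively enumerable set is many-one reducible to the set of the `a`
for which `f_a` is not any-dimensional positive. In particular the set of the `a` for which `f_a` is
any-dimensional positive is not recursively enumerable, although only finitely many power sums occur
and the degree is bounded in this family. -/
theorem result :
    (¬ ∃ D : Inst → Prop, ComputablePred D ∧ ∀ L : Inst, D L ↔ Pos (poly L)) ∧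
    ∃ A B : Inst,
      (∀ a : ℕ, poly (fam A B a) = poly A + C (a : ℚ) * poly B + C ((a : ℚ) ^ 2)) ∧
      Computable (fam A B) ∧
      (∀ W : ℕ → Prop, REPred W → ∃ g : ℕ → ℕ, Computable g ∧
        ∀ n, W n ↔ ¬ Pos (poly (fam A B (g n)))) ∧
      ¬ REPred fun a : ℕ => Pos (poly (fam A B a)) := by
  obtain ⟨A, B, h⟩ := exists_fam
  have key : ∀ a, Pos (poly (fam A B a)) ↔ ¬ haltS a := by
    intro a
    constructor
    · intro h1 h2
      obtain ⟨n, x, h3⟩ := (h a).2 h2
      exact not_pos_of_neg (by rw [h3]; norm_num) h1
    · intro h1
      refine pos_of_pos fun n x => ?_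
      have := (h a).1 h1 n x
      linarith
  refine ⟨?_, A, B, poly_fam A B, fam_computable A B, ?_, ?_⟩
  · rintro ⟨D, hD, hDL⟩
    exact not_re_of_reduction (fam A B) (fam_computable A B)
      (fun n => (hDL _).trans (key n)) hD.to_re
  · intro W hW
    obtain ⟨g, hg, hWg⟩ := haltS_universal hW
    refine ⟨g, hg, fun n => ?_⟩
    rw [hWg, key, not_not]
  · exact not_re_of_reduction id Computable.id key

end Pool.Agent.Results.MP_9c9736_lc.Positivity
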